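import Pool.Agent.R498.MP.StrC
import Pool.Agent.R498.MP.LinC

set_option autoImplicit false

/-!
# Runs of consecutive `n = k + m` with prime `p_m ^ 2 - 2`, `p_{p_m} ^ 2 - 2` and almost prime `p_k ^ 2 - 2`
-/

namespace Pool.Agent.Results.MP_04ff0f_nt.RunsOfRepresentations

open Filter

/-- the `m`-th prime, `pr 1 = 2` -/
noncomputable def pr (m : ℕ) : ℕ := Nat.nth Nat.Prime (m - 1)

/-- `m` satisfies both conditions of the problem: `p_m ^ 2 - 2` and `p_{p_m} ^ 2 - 2` are prime. -/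
def Good (m : ℕ) : Prop := 0 < m ∧ (pr m ^ 2 - 2).Prime ∧ (pr (pr m) ^ 2 - 2).Prime

/-- `p ^ 2 - 2` has at most `r` prime factors, counted with multiplicity, all of them at least `w`. -/
def AlmostPrimeValue (r : ℕ) (w : ℝ) (p : ℕ) : Prop :=
  (p ^ 2 - 2).primeFactorsList.length ≤ r ∧ ∀ q : ℕ, q.Prime → q ∣ p ^ 2 - 2 → w ≤ q

theorem good_one : Good 1 := by
  have h1 : pr 1 = 2 := Nat.nth_prime_zero_eq_two
  have h2 : pr 2 = 3 := Nat.nth_prime_one_eq_three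
  refine ⟨one_pos, ?_, ?_⟩
  · rw [h1]; norm_num
  · rw [h1, h2]; norm_num

theorem good_two : Good 2 := by
  have h2 : pr 2 = 3 := Nat.nth_prime_one_eq_three
  have h3 : pr 3 = 5 := Nat.nth_prime_two_eq_five
  refine ⟨two_pos, ?_, ?_⟩
  · rw [h2]; norm_num
  · rw [h2, h3]; norm_num

theorem cast_val (p : ℕ) (hp : 2 ≤ p) : (p : ℤ) ^ 2 - 2 = ((p ^ 2 - 2 : ℕ) : ℤ) := by
  have h : 2 ≤ p ^ 2 := by nlinarith
  push_cast [Nat.cast_sub h]
  ring

theorem nonzero (n : ℤ) : n ^ 2 - 2 ≠ 0 := by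
  intro h
  have h1 : n.natAbs * n.natAbs = 2 := by
    zify
    rw [← sq, sq_abs]
    linarith
  have h2 : n.natAbs ≤ 1 := by nlinarith
  interval_cases n.natAbs <;> omega

theorem eval_f (n : ℤ) : (Polynomial.X ^ 2 - 2 : Polynomial ℤ).eval n = n ^ 2 - 2 := by
  simp

theorem adm (p : ℕ) (hp : p.Prime) :
    ∃ n : ℤ, ¬ (p : ℤ) ∣ n * (Polynomial.X ^ 2 - 2 : Polynomial ℤ).eval n := by
  refine ⟨1, fun h => ?_⟩
  rw [eval_f] at h
  have h3 : (p : ℤ) ∣ 1 := by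
    have h4 := h.mul_left (-1)
    norm_num at h4
    exact_mod_cast h4
  exact hp.one_lt.ne' (Nat.dvd_one.1 (by exact_mod_cast h3))

/-- **Runs of consecutive `n = k + m` with prime `p_m ^ 2 - 2`, `p_{p_m} ^ 2 - 2` and almost prime
`p_k ^ 2 - 2`.** `m = 1` and `m = 2` satisfy both conditions on `m`. Let `T` be any finite set of `m`
which satisfy these conditions, let `L ≥ 0`, let `q` be squarefree and let `c (c ^ 2 - 2)` be coprime to `q`
(for instance `q = 1`). There are `C`, `r` and `δ > 0` such that for all large `N` there are `x` and `X`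
such that for ALL `n` with `x < n ≤ x + L` and ALL `m ∈ T` one has `n = k + m` with `k > 0` such that the
prime `p_k` lies in `(N, 2 N]` and in `[X, X + C]`, is `≡ c` modulo `q`, and `p_k ^ 2 - 2` has at most `r`
prime factors, all of them at least `N ^ δ`. -/
theorem result : Good 1 ∧ Good 2 ∧ ∀ (T : Finset ℕ), (∀ m ∈ T, Good m) → ∀ (L q c : ℕ), Squarefree q →
    IsCoprime ((c : ℤ) * ((c : ℤ) ^ 2 - 2)) (q : ℤ) →
    ∃ (C r : ℕ) (δ : ℝ), 0 < δ ∧ ∀ᶠ N : ℕ in atTop, ∃ x X : ℕ,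
      ∀ n ∈ Finset.Ioc x (x + L), ∀ m ∈ T, ∃ k : ℕ, 0 < k ∧ n = k + m ∧
        N < pr k ∧ pr k ≤ 2 * N ∧ X ≤ pr k ∧ pr k ≤ X + C ∧ pr k ≡ c [MOD q] ∧
        AlmostPrimeValue r ((N : ℝ) ^ δ) (pr k) := by
  refine ⟨good_one, good_two, fun T hT L q c hq hc => ?_⟩
  obtain ⟨M, hM⟩ : ∃ M, M = T.sup id := ⟨_, rfl⟩
  obtain ⟨C, r, δ, hδ, hmain⟩ := Pool.Agent.R498.MP.index_runsC
    (Polynomial.X ^ 2 - 2) (fun n _ => by rw [eval_f]; exact nonzero n) adm q c hq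
    (fun p hp hpq => by
      rw [eval_f]
      exact Pool.Agent.R498.MP.cop_to _ q hc p hp hpq) 1 (L + M) le_rfl
  refine ⟨C, r, δ, hδ, ?_⟩
  filter_upwards [hmain 0] with N hN
  obtain ⟨t, h1, h2, h3, h4⟩ := hN
  simp only [one_mul, add_zero] at h1 h2 h3 h4
  have hmono : ∀ i j : ℕ, i ≤ j → Nat.nth Nat.Prime i ≤ Nat.nth Nat.Prime j := fun i j hij =>
    (Nat.nth_strictMono Nat.infinite_setOfPred_prime).monotone hij
  refine ⟨t + M, Nat.nth Nat.Prime t, fun n hn m hm => ⟨n - m, ?_⟩⟩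
  rw [Finset.mem_Ioc] at hn
  have hmM : m ≤ M := by rw [hM]; exact Finset.le_sup (f := id) hm
  have hm0 : 0 < m := (hT m hm).1
  obtain ⟨j, hj⟩ : ∃ j, n - m - 1 = t + j := ⟨n - m - 1 - t, by omega⟩
  have hjL : j ≤ L + M := by omega
  have hpr : pr (n - m) = Nat.nth Nat.Prime (t + j) := by
    unfold pr
    rw [hj]
  rw [hpr]
  have g1 := hmono t (t + j) (by omega)
  have g2 := hmono (t + j) (t + (L + M)) (by omega)
  refine ⟨by omega, by omega, by omega, by omega, g1, by omega, (h4 j hjL).1, ?_⟩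
  obtain ⟨-, g5, g6⟩ := (h4 j hjL).2
  rw [eval_f, cast_val _ (Nat.prime_nth_prime _).two_le] at g5 g6
  rw [Int.natAbs_natCast] at g5
  exact ⟨g5, fun q hq hqd => g6 q hq (by exact_mod_cast hqd)⟩

end Pool.Agent.Results.MP_04ff0f_nt.RunsOfRepresentations
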