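import Mathlib
import Pool.Agent.N909.TF.Lim

set_option autoImplicit false

/-!
# Representations `n = k + m` with `p_k² - 2`, `p_m² - 2`, `p_{p_m}² - 2` prime, in all sequential random models

The question is whether every `n > 1` is `k + m` with `p_k² - 2`, `p_m² - 2` and `p_{p_m}² - 2` prime.
We prove that in EVERY sequential random model of the primes (the integers are decided one after the
other, the conditional probability of choosing `n + 1` given the past is asymptotic to `1 / log n`; no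
independence, no rate) the number of such representations of `n` is asymptotic to `n / (8 log³ n)`.
-/

open MeasureTheory Filter
open scoped Topology

namespace Pool.Agent.Results.MP_04ff0f_nt.SequentialModels

/-- the element number `k` of `S` in increasing order (the least one has number `1`) -/
noncomputable def p (S : Set ℕ) (k : ℕ) : ℕ := Nat.nth (· ∈ S) (k - 1)

/-- `x² - 2` belongs to `S` -/
def sqm (S : Set ℕ) (x : ℕ) : Prop := ∃ a ∈ S, a + 2 = x ^ 2

/-- the `k` for which `n = k + m`, `m ≥ 1`, is a representation as in the question, with the elements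
of `S` in the role of the primes -/
def dec (S : Set ℕ) (n : ℕ) : Set ℕ :=
  {k | 0 < k ∧ k < n ∧ sqm S (p S k) ∧ sqm S (p S (n - k)) ∧ sqm S (p S (p S (n - k)))}

open Pool.Agent.N909.TF

lemma p_eq (S : Set ℕ) (k : ℕ) : p S k = pk S k := rfl

lemma sqm_iff {S : Set ℕ} {x : ℕ} (hx : 2 ≤ x) : sqm S x ↔ x ^ 2 - 2 ∈ S := by
  have h1 : 4 ≤ x ^ 2 := by nlinarith
  constructor
  · rintro ⟨a, ha, h⟩
    rwa [show x ^ 2 - 2 = a by omega]
  · intro h
    exact ⟨x ^ 2 - 2, h, by omega⟩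

/-- the time -/
def X (n : ℕ) : ℕ := n * Nat.sqrt n

/-- the triple -/
noncomputable def tri (s : Finset ℕ) (n k : ℕ) : Finset ℕ :=
  {pk (s : Set ℕ) k ^ 2 - 2, pk (s : Set ℕ) (n - k) ^ 2 - 2, pk (s : Set ℕ) (pk (s : Set ℕ) (n - k)) ^ 2 - 2}

/-- the random family -/
noncomputable def Phi (n : ℕ) (s : Finset ℕ) : Finset (ℕ × Finset ℕ) :=
  ((Finset.Ioo 0 n).image (fun k => (k, tri s n k))).filter
    (fun j => j.2.card = 3 ∧ (∀ t ∈ j.2, X n < t) ∧ ∀ t ∈ j.2, t ≤ X n ^ 2)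

lemma mem_Phi {n : ℕ} {s : Finset ℕ} {j : ℕ × Finset ℕ} : j ∈ Phi n s ↔ (0 < j.1 ∧ j.1 < n ∧ j.2 = tri s n j.1) ∧
    j.2.card = 3 ∧ (∀ t ∈ j.2, X n < t) ∧ ∀ t ∈ j.2, t ≤ X n ^ 2 := by
  unfold Phi
  rw [Finset.mem_filter, Finset.mem_image]
  constructor
  · rintro ⟨⟨k, hk, rfl⟩, h⟩
    rw [Finset.mem_Ioo] at hk
    exact ⟨⟨hk.1, hk.2, rfl⟩, h⟩
  · rintro ⟨⟨h1, h2, h3⟩, h⟩
    refine ⟨⟨j.1, Finset.mem_Ioo.2 ⟨h1, h2⟩, ?_⟩, h⟩
    rw [← h3]

lemma sq_inj {a b t : ℕ} (ht : 0 < t) (ha : t = a ^ 2 - 2) (hb : t = b ^ 2 - 2) : a = b := by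
  have : a ^ 2 = b ^ 2 := by omega
  exact Nat.pow_left_injective two_ne_zero this

/-- the multiplicity -/
lemma Phi_mult (n : ℕ) (s : Finset ℕ) (t : ℕ) : ((Phi n s).filter (fun j => t ∈ j.2)).card ≤ 3 := by
  classical
  rcases Nat.eq_zero_or_pos t with rfl | ht
  · rw [Finset.filter_eq_empty_iff.2]
    · simp
    · intro j hj h
      have := (mem_Phi.1 hj).2.2.1 0 h
      omega
  have key : ∀ f : ℕ → ℕ, (∀ j ∈ Phi n s, ∀ j' ∈ Phi n s, t = f j.1 ^ 2 - 2 → t = f j'.1 ^ 2 - 2 → f j.1 = f j'.1 → j.1 = j'.1) →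
      ((Phi n s).filter (fun j => t = f j.1 ^ 2 - 2)).card ≤ 1 := by
    intro f hf
    refine Finset.card_le_one.2 fun a ha b hb => ?_
    rw [Finset.mem_filter] at ha hb
    have h1 := hf a ha.1 b hb.1 ha.2 hb.2 (sq_inj ht ha.2 hb.2)
    have h2 := (mem_Phi.1 ha.1).1.2.2
    have h3 := (mem_Phi.1 hb.1).1.2.2
    rw [h1] at h2
    exact Prod.ext h1 (h2.trans h3.symm)
  have hpos : ∀ f : ℕ, t = f ^ 2 - 2 → 0 < f := by
    intro f hf
    rcases Nat.eq_zero_or_pos f with rfl | h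
    · simp at hf
      omega
    · exact h
  have k1 := key (fun k => pk (s : Set ℕ) k) (by
    intro j hj j' hj' h1 h2 h3
    exact pk_fin_inj s (mem_Phi.1 hj).1.1 (mem_Phi.1 hj').1.1 (hpos _ h1) h3)
  have hnk : ∀ j ∈ Phi n s, 0 < n - j.1 ∧ j.1 < n := by
    intro j hj
    have := (mem_Phi.1 hj).1
    omega
  have k2 := key (fun k => pk (s : Set ℕ) (n - k)) (by
    intro j hj j' hj' h1 h2 h3
    have := pk_fin_inj s (hnk j hj).1 (hnk j' hj').1 (hpos _ h1) h3
    have := (hnk j hj).2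
    have := (hnk j' hj').2
    omega)
  have hb : ∀ j ∈ Phi n s, 0 < pk (s : Set ℕ) (n - j.1) := by
    intro j hj
    have h1 := (mem_Phi.1 hj)
    have h2 : pk (s : Set ℕ) (n - j.1) ^ 2 - 2 ∈ j.2 := by
      rw [h1.1.2.2]
      unfold tri
      simp
    have h3 := h1.2.2.1 _ h2
    rcases Nat.eq_zero_or_pos (pk (s : Set ℕ) (n - j.1)) with h | h
    · rw [h] at h3
      simp at h3
    · exact h
  have k3 := key (fun k => pk (s : Set ℕ) (pk (s : Set ℕ) (n - k))) (by
    intro j hj j' hj' h1 h2 h3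
    have h4 := pk_fin_inj s (hb j hj) (hb j' hj') (hpos _ h1) h3
    have := pk_fin_inj s (hnk j hj).1 (hnk j' hj').1 (hb j hj) h4
    have := (hnk j hj).2
    have := (hnk j' hj').2
    omega)
  have hsub : (Phi n s).filter (fun j => t ∈ j.2) ⊆
      (Phi n s).filter (fun j => t = pk (s : Set ℕ) j.1 ^ 2 - 2) ∪
      ((Phi n s).filter (fun j => t = pk (s : Set ℕ) (n - j.1) ^ 2 - 2) ∪
      (Phi n s).filter (fun j => t = pk (s : Set ℕ) (pk (s : Set ℕ) (n - j.1)) ^ 2 - 2)) := by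
    intro j hj
    rw [Finset.mem_filter] at hj
    have h1 := hj.2
    rw [(mem_Phi.1 hj.1).1.2.2] at h1
    unfold tri at h1
    simp only [Finset.mem_insert, Finset.mem_singleton] at h1
    simp only [Finset.mem_union, Finset.mem_filter]
    rcases h1 with h1 | h1 | h1
    · left; exact ⟨hj.1, h1⟩
    · right; left; exact ⟨hj.1, h1⟩
    · right; right; exact ⟨hj.1, h1⟩
  refine (Finset.card_le_card hsub).trans ((Finset.card_union_le _ _).trans ?_)
  have := Finset.card_union_le ((Phi n s).filter (fun j => t = pk (s : Set ℕ) (n - j.1) ^ 2 - 2))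
    ((Phi n s).filter (fun j => t = pk (s : Set ℕ) (pk (s : Set ℕ) (n - j.1)) ^ 2 - 2))
  omega

/-- growth of the elements, at the scale `n`: for `n ^ e ≤ k ≤ n` -/
lemma scale {S : Set ℕ} (hS : PNT S) (e ε : ℝ) (he : 0 < e) (hε : 0 < ε) :
    ∀ᶠ n : ℕ in atTop, ∀ k : ℕ, (n : ℝ) ^ e ≤ k → (pk S k : ℝ) ≤ (k : ℝ) ^ (1 + ε) ∧ k < pk S k := by
  refine ev_ge ?_ e he
  filter_upwards [pk_up hS ε hε, pk_gt hS 1] with k g1 g2
  exact ⟨g1, by simpa using g2⟩

/-- for most `k` everything is as it should be; `d` measures the distance from the ends -/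
lemma typical {S : Set ℕ} (hS : PNT S) (d : ℝ) (hd : 0 < d) (hd1 : d ≤ 1 / 5) :
    ∀ᶠ n : ℕ in atTop, ∀ k : ℕ, (n : ℝ) ^ (1 - d) ≤ k → k ≤ n →
      (pk S k : ℝ) ≤ (n : ℝ) ^ (1 + d / 3) ∧ k < pk S k ∧
      (n : ℝ) ^ (2 * (1 - d)) ≤ ((pk S k ^ 2 - 2 : ℕ) : ℝ) ∧
      (pk S (pk S k) : ℝ) ≤ (n : ℝ) ^ (1 + d) ∧ pk S k < pk S (pk S k) ∧
      (n : ℝ) ^ (2 * (1 - d)) ≤ ((pk S (pk S k) ^ 2 - 2 : ℕ) : ℝ) ∧ 2 ≤ pk S k := by
  filter_upwards [scale hS (1 - d) (d / 3) (by linarith) (by positivity), eventually_ge_atTop 4,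
    pow_beat 0 (1 - d) 4 (by linarith) (by linarith)] with n g1 g2 g3 k hk hkn
  have hn : (4 : ℝ) ≤ n := by exact_mod_cast g2
  have hn0 : (0 : ℝ) < n := by linarith
  have hn1 : (1 : ℝ) ≤ n := by linarith
  have hkn' : (k : ℝ) ≤ n := by exact_mod_cast hkn
  obtain ⟨h1, h2⟩ := g1 k hk
  have h2' : (k : ℝ) + 1 ≤ pk S k := by exact_mod_cast h2
  have hk0 : (0 : ℝ) ≤ k := Nat.cast_nonneg k
  have h3 : (pk S k : ℝ) ≤ (n : ℝ) ^ (1 + d / 3) := h1.trans (Real.rpow_le_rpow hk0 hkn' (by linarith))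
  obtain ⟨h4, h5⟩ := g1 (pk S k) (by linarith)
  have h5' : (pk S k : ℝ) + 1 ≤ pk S (pk S k) := by exact_mod_cast h5
  have h6 : (pk S (pk S k) : ℝ) ≤ (n : ℝ) ^ (1 + d) := by
    refine h4.trans ((Real.rpow_le_rpow (Nat.cast_nonneg _) h3 (by linarith)).trans ?_)
    rw [← Real.rpow_mul hn0.le]
    exact Real.rpow_le_rpow_of_exponent_le hn1 (by nlinarith)
  have hpk : (8 : ℝ) ≤ (n : ℝ) ^ (1 - d) := by
    rw [Real.rpow_zero] at g3
    linarith
  clear g3
  have hsq : ∀ x : ℕ, (n : ℝ) ^ (1 - d) + 1 ≤ x → (n : ℝ) ^ (2 * (1 - d)) ≤ ((x ^ 2 - 2 : ℕ) : ℝ) := by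
    intro x hx
    have e1 : (n : ℝ) ^ (2 * (1 - d)) = ((n : ℝ) ^ (1 - d)) ^ 2 := by
      rw [mul_comm, Real.rpow_mul hn0.le]
      norm_num
    have e2 : 2 ≤ x := by
      have : (2 : ℝ) ≤ x := by linarith
      exact_mod_cast this
    have e3 : 2 ≤ x ^ 2 := by nlinarith
    rw [Nat.cast_sub e3, e1]
    push_cast
    have e7 : ∀ P : ℝ, 8 ≤ P → P + 1 ≤ x → P ^ 2 ≤ (x : ℝ) ^ 2 - 2 := by
      intro P hP hx'
      have e4 : (P + 1) ^ 2 ≤ (x : ℝ) ^ 2 := pow_le_pow_left₀ (by linarith) hx' 2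
      linarith
    exact e7 _ hpk hx
  refine ⟨h3, h2, hsq (pk S k) (by linarith), h6, h5, hsq (pk S (pk S k)) (by linarith), ?_⟩
  have h10 : (8 : ℝ) ≤ k := hpk.trans hk
  have h11 : 8 ≤ k := by exact_mod_cast h10
  omega

/-- the time in terms of powers -/
lemma time : ∀ᶠ n : ℕ in atTop, (n : ℝ) ^ (7 / 5 : ℝ) ≤ X n ∧ (X n : ℝ) ≤ (n : ℝ) ^ (3 / 2 : ℝ) := by
  filter_upwards [pow_beat 1 (3 / 2) 1 (by norm_num) (by norm_num), pow_beat (7 / 5) (3 / 2) 2 (by norm_num) (by norm_num),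
    eventually_ge_atTop 1] with n g1 g2 g3
  have hn : (1 : ℝ) ≤ n := by exact_mod_cast g3
  have hn0 : (0 : ℝ) < n := by linarith
  have h1 : (X n : ℝ) = n * Nat.sqrt n := by unfold X; push_cast; ring
  have h2 : (Nat.sqrt n : ℝ) ≤ √(n : ℝ) := by
    apply Real.le_sqrt_of_sq_le
    exact_mod_cast Nat.sqrt_le' n
  have h3 : √(n : ℝ) ≤ Nat.sqrt n + 1 := by
    rw [Real.sqrt_le_left (by positivity)]
    have := Nat.lt_succ_sqrt' n
    have h6 : (n : ℝ) < ((Nat.sqrt n + 1 : ℕ) : ℝ) ^ 2 := by exact_mod_cast this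
    push_cast at h6
    exact h6.le
  have e1 : (n : ℝ) ^ (3 / 2 : ℝ) = n * √(n : ℝ) := by
    rw [Real.sqrt_eq_rpow]
    nth_rewrite 2 [← Real.rpow_one (n : ℝ)]
    rw [← Real.rpow_add hn0]
    norm_num
  rw [h1]
  constructor
  · have h4 : (n : ℝ) * √(n : ℝ) ≤ n * (Nat.sqrt n + 1) := mul_le_mul_of_nonneg_left h3 hn0.le
    rw [Real.rpow_one] at g1
    rw [e1] at g1 g2
    have h7 : (n : ℝ) ≤ (n : ℝ) ^ (7 / 5 : ℝ) := by
      nth_rewrite 1 [← Real.rpow_one (n : ℝ)]
      exact Real.rpow_le_rpow_of_exponent_le hn (by norm_num)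
    nlinarith
  · rw [e1]
    exact mul_le_mul_of_nonneg_left h2 hn0.le

/-- the typical `k` give members of the family -/
lemma typ_mem {S : Set ℕ} (hS : PNT S) : ∀ᶠ n : ℕ in atTop, ∀ s : Finset ℕ, (∀ t, t ∈ s ↔ t ≤ X n ∧ t ∈ S) →
    ∀ k : ℕ, k < n → (n : ℝ) ^ (4 / 5 : ℝ) ≤ k → (n : ℝ) ^ (4 / 5 : ℝ) ≤ (n - k : ℕ) → k ≠ n - k → pk S (n - k) ≠ k →
      (k, tri s n k) ∈ Phi n s ∧
      tri s n k = {pk S k ^ 2 - 2, pk S (n - k) ^ 2 - 2, pk S (pk S (n - k)) ^ 2 - 2} ∧
      2 ≤ pk S k ∧ 2 ≤ pk S (n - k) ∧ 2 ≤ pk S (pk S (n - k)) := by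
  have hinf := infinite_of_pnt hS
  filter_upwards [typical hS (1 / 5) (by norm_num) le_rfl, time, eventually_ge_atTop 1,
    pow_beat (3 / 2) (8 / 5) 1 (by norm_num) (by norm_num)] with n g1 g2 g3 g4 s hs k hkn hk hk' hne hne2
  have hn : (1 : ℝ) ≤ n := by exact_mod_cast g3
  have hn0 : (0 : ℝ) < n := by linarith
  norm_num at g1
  obtain ⟨a1, a2, a3, a4, a5, a6, a7⟩ := g1 k hk hkn.le
  obtain ⟨b1, b2, b3, b4, b5, b6, b7⟩ := g1 (n - k) hk' (by omega)
  have hXle : ∀ x : ℕ, (x : ℝ) ≤ (n : ℝ) ^ (6 / 5 : ℝ) → x ≤ X n := by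
    intro x hx
    have : (x : ℝ) ≤ X n := hx.trans ((Real.rpow_le_rpow_of_exponent_le hn (by norm_num)).trans g2.1)
    exact_mod_cast this
  have h1615 : (n : ℝ) ^ (16 / 15 : ℝ) ≤ (n : ℝ) ^ (6 / 5 : ℝ) := Real.rpow_le_rpow_of_exponent_le hn (by norm_num)
  have ha := hXle _ (a1.trans h1615)
  have hb := hXle _ (b1.trans h1615)
  have hc := hXle _ b4
  have e1 := pk_trunc hinf s (X n) hs ha
  have e2 := pk_trunc hinf s (X n) hs hb
  have e3 := pk_trunc hinf s (X n) hs hc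
  have htri : tri s n k = {pk S k ^ 2 - 2, pk S (n - k) ^ 2 - 2, pk S (pk S (n - k)) ^ 2 - 2} := by
    unfold tri
    rw [e1, e2, e3]
  have hbig : ∀ x : ℕ, (n : ℝ) ^ (8 / 5 : ℝ) ≤ ((x ^ 2 - 2 : ℕ) : ℝ) → X n < x ^ 2 - 2 := by
    intro x hx
    have : (X n : ℝ) < ((x ^ 2 - 2 : ℕ) : ℝ) := by linarith [g2.2]
    exact_mod_cast this
  have hup : ∀ x : ℕ, x ≤ X n → x ^ 2 - 2 ≤ X n ^ 2 := by
    intro x hx
    have := Nat.pow_le_pow_left hx 2
    omega
  have hsq : ∀ x y : ℕ, 2 ≤ x → 2 ≤ y → x ≠ y → x ^ 2 - 2 ≠ y ^ 2 - 2 := by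
    intro x y hx hy hxy h
    apply hxy
    have h1 : 4 ≤ x ^ 2 := by nlinarith
    have h2 : 4 ≤ y ^ 2 := by nlinarith
    have : x ^ 2 = y ^ 2 := by omega
    exact Nat.pow_left_injective two_ne_zero this
  have hc2 : 2 ≤ pk S (pk S (n - k)) := by omega
  have hk0 : 0 < k := by
    have : (0 : ℝ) < k := lt_of_lt_of_le (Real.rpow_pos_of_pos hn0 _) hk
    exact_mod_cast this
  refine ⟨?_, htri, a7, b7, hc2⟩
  rw [mem_Phi]
  refine ⟨⟨hk0, hkn, rfl⟩, ?_⟩
  simp only [htri]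
  refine ⟨?_, ?_, ?_⟩
  · rw [Finset.card_eq_three]
    refine ⟨_, _, _, hsq _ _ a7 b7 ?_, hsq _ _ a7 hc2 ?_, hsq _ _ b7 hc2 b5.ne, rfl⟩
    · intro h
      exact hne (pk_inj hinf hk0 (by omega) h)
    · intro h
      exact hne2 (pk_inj hinf hk0 (by omega) h).symm
  · intro t ht
    simp only [Finset.mem_insert, Finset.mem_singleton] at ht
    rcases ht with rfl | rfl | rfl
    · exact hbig _ a3
    · exact hbig _ b3
    · exact hbig _ b6
  · intro t ht
    simp only [Finset.mem_insert, Finset.mem_singleton] at ht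
    rcases ht with rfl | rfl | rfl
    · exact hup _ ha
    · exact hup _ hb
    · exact hup _ hc

/-- the exceptional `k` -/
noncomputable def exc (S : Set ℕ) (n : ℕ) (e : ℝ) : Finset ℕ :=
  (Finset.range n).filter (fun k => (k : ℝ) < (n : ℝ) ^ e ∨ ((n - k : ℕ) : ℝ) < (n : ℝ) ^ e ∨ k = n - k ∨ pk S (n - k) = k)

lemma exc_card {S : Set ℕ} (hS : S.Infinite) (n : ℕ) (e : ℝ) : ((exc S n e).card : ℝ) ≤ 2 * (n : ℝ) ^ e + 5 := by
  classical
  have hp : 0 ≤ (n : ℝ) ^ e := Real.rpow_nonneg (Nat.cast_nonneg n) e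
  have h1 : exc S n e ⊆ (Finset.range (⌊(n : ℝ) ^ e⌋₊ + 1)) ∪
      (((Finset.range (⌊(n : ℝ) ^ e⌋₊ + 1)).image (fun l => n - l)) ∪
      ({n / 2} ∪ (Finset.range n).filter (fun k => pk S (n - k) = k))) := by
    intro k hk
    unfold exc at hk
    rw [Finset.mem_filter, Finset.mem_range] at hk
    simp only [Finset.mem_union, Finset.mem_range, Finset.mem_image, Finset.mem_singleton, Finset.mem_filter]
    obtain ⟨h0, h | h | h | h⟩ := hk
    · left
      have := (Nat.le_floor_iff hp).2 h.le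
      omega
    · right; left
      refine ⟨n - k, ?_, by omega⟩
      have := (Nat.le_floor_iff hp).2 h.le
      omega
    · right; right; left
      omega
    · right; right; right
      exact ⟨h0, h⟩
  have h2 : ((Finset.range n).filter (fun k => pk S (n - k) = k)).card ≤ 1 := by
    refine Finset.card_le_one.2 fun a ha b hb => ?_
    rw [Finset.mem_filter, Finset.mem_range] at ha hb
    rcases lt_trichotomy a b with h | h | h
    · have := pk_lt hS (show 0 < n - b by omega) (show n - b < n - a by omega)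
      omega
    · exact h
    · have := pk_lt hS (show 0 < n - a by omega) (show n - a < n - b by omega)
      omega
  have h3 := (Finset.card_le_card h1).trans (Finset.card_union_le _ _)
  have h4 := Finset.card_union_le ((Finset.range (⌊(n : ℝ) ^ e⌋₊ + 1)).image (fun l => n - l))
    ({n / 2} ∪ (Finset.range n).filter (fun k => pk S (n - k) = k))
  have h5 := Finset.card_union_le ({n / 2} : Finset ℕ) ((Finset.range n).filter (fun k => pk S (n - k) = k))
  have h6 : ((Finset.range (⌊(n : ℝ) ^ e⌋₊ + 1)).image (fun l => n - l)).card ≤ ⌊(n : ℝ) ^ e⌋₊ + 1 :=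
    Finset.card_image_le.trans (le_of_eq (Finset.card_range _))
  rw [Finset.card_singleton] at h5
  rw [Finset.card_range] at h3
  have h7 : (exc S n e).card ≤ 2 * ⌊(n : ℝ) ^ e⌋₊ + 4 := by omega
  have h8 : ((exc S n e).card : ℝ) ≤ 2 * (⌊(n : ℝ) ^ e⌋₊ : ℝ) + 4 := by exact_mod_cast h7
  have h9 := Nat.floor_le hp
  linarith

lemma cop_one (J : Finset (ℕ × Finset ℕ)) : cop J Prod.snd 1 = J := by
  unfold cop
  exact Finset.filter_true_of_mem fun j _ t _ => Nat.coprime_one_right t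

lemma not_exc {S : Set ℕ} {n k : ℕ} {e : ℝ} (hk : k < n) (h : k ∉ exc S n e) :
    (n : ℝ) ^ e ≤ k ∧ (n : ℝ) ^ e ≤ (n - k : ℕ) ∧ k ≠ n - k ∧ pk S (n - k) ≠ k := by
  unfold exc at h
  rw [Finset.mem_filter, Finset.mem_range] at h
  push Not at h
  exact h hk

/-- the number of members of the family -/
lemma Phi_card {S : Set ℕ} (hS : PNT S) : ∀ᶠ n : ℕ in atTop, ∀ s : Finset ℕ, (∀ t, t ∈ s ↔ t ≤ X n ∧ t ∈ S) →
    (n : ℝ) - (2 * (n : ℝ) ^ (4 / 5 : ℝ) + 5) ≤ (Phi n s).card ∧ ((Phi n s).card : ℝ) ≤ n := by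
  classical
  filter_upwards [typ_mem hS] with n g s hs
  constructor
  · have h1 : ((Finset.range n \ exc S n (4 / 5)).image (fun k => (k, tri s n k))) ⊆ Phi n s := by
      intro j hj
      rw [Finset.mem_image] at hj
      obtain ⟨k, hk, rfl⟩ := hj
      rw [Finset.mem_sdiff, Finset.mem_range] at hk
      obtain ⟨a1, a2, a3, a4⟩ := not_exc hk.1 hk.2
      exact (g s hs k hk.1 a1 a2 a3 a4).1
    have h2 := Finset.card_le_card h1
    rw [Finset.card_image_of_injective _ (fun a b h => (Prod.mk.inj h).1)] at h2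
    have h3 : n ≤ (Finset.range n \ exc S n (4 / 5)).card + (exc S n (4 / 5)).card := by
      have := Finset.card_le_card_sdiff_add_card (t := exc S n (4 / 5)) (s := Finset.range n)
      rwa [Finset.card_range] at this
    have h4 := exc_card (infinite_of_pnt hS) n (4 / 5)
    have h5 : (n : ℝ) ≤ (Phi n s).card + (exc S n (4 / 5)).card := by exact_mod_cast h3.trans (by omega)
    linarith
  · have h1 : (Phi n s).card ≤ (Finset.range n).card := by
      refine Finset.card_le_card_of_injOn Prod.fst ?_ ?_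
      · intro j hj
        have := (mem_Phi.1 hj).1
        exact Finset.mem_coe.2 (Finset.mem_range.2 this.2.1)
      · intro j hj j' hj' h
        have h1 := (mem_Phi.1 hj).1.2.2
        have h2 := (mem_Phi.1 hj').1.2.2
        refine Prod.ext h ?_
        rw [h1, h2, h]
    rw [Finset.card_range] at h1
    exact_mod_cast h1

/-- the exceptional members -/
lemma Phi_far {S : Set ℕ} (hS : PNT S) (δ : ℝ) (hδ : 0 < δ) : ∃ d : ℝ, 0 < d ∧ ∀ᶠ n : ℕ in atTop, ∀ s : Finset ℕ,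
    (∀ t, t ∈ s ↔ t ≤ X n ∧ t ∈ S) →
    ((far (Phi n s) Prod.snd (2 * Real.log n) δ).card : ℝ) ≤ 2 * (n : ℝ) ^ (1 - d) + 5 := by
  classical
  set d : ℝ := min δ (1 / 5) with hd
  have hd0 : 0 < d := by rw [hd]; positivity
  have hd1 : d ≤ 1 / 5 := min_le_right _ _
  refine ⟨d, hd0, ?_⟩
  filter_upwards [typ_mem hS, typical hS d hd0 hd1, eventually_gt_atTop 1] with n g g1 g2 s hs
  have hn : (1 : ℝ) < n := by exact_mod_cast g2
  have hn0 : (0 : ℝ) < n := by linarith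
  have hL : 0 < Real.log n := Real.log_pos hn
  have h1 : (far (Phi n s) Prod.snd (2 * Real.log n) δ).card ≤ (exc S n (1 - d)).card := by
    refine Finset.card_le_card_of_injOn Prod.fst ?_ ?_
    · intro j hj
      unfold far at hj
      rw [Finset.mem_coe, Finset.mem_filter] at hj
      obtain ⟨hj1, t, ht, hfar⟩ := hj
      have hm := (mem_Phi.1 hj1).1
      rw [Finset.mem_coe]
      by_contra hcon
      obtain ⟨a1, a2, a3, a4⟩ := not_exc hm.2.1 hcon
      have hle : (n : ℝ) ^ (4 / 5 : ℝ) ≤ (n : ℝ) ^ (1 - d) := Real.rpow_le_rpow_of_exponent_le hn.le (by linarith)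
      obtain ⟨-, htri, -⟩ := g s hs j.1 hm.2.1 (hle.trans a1) (hle.trans a2) a3 a4
      obtain ⟨b1, b2, b3, b4, b5, b6, b7⟩ := g1 j.1 a1 hm.2.1.le
      obtain ⟨c1, c2, c3, c4, c5, c6, c7⟩ := g1 (n - j.1) a2 (by omega)
      rw [hm.2.2, htri] at ht
      simp only [Finset.mem_insert, Finset.mem_singleton] at ht
      have hup : ∀ x : ℕ, (x : ℝ) ≤ (n : ℝ) ^ (1 + d) → ((x ^ 2 - 2 : ℕ) : ℝ) ≤ (n : ℝ) ^ (2 * (1 + d)) := by
        intro x hx
        have e1 : (n : ℝ) ^ (2 * (1 + d)) = ((n : ℝ) ^ (1 + d)) ^ 2 := by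
          rw [mul_comm, Real.rpow_mul hn0.le]
          norm_num
        rw [e1]
        calc ((x ^ 2 - 2 : ℕ) : ℝ) ≤ ((x ^ 2 : ℕ) : ℝ) := by exact_mod_cast Nat.sub_le _ _
          _ = (x : ℝ) ^ 2 := by push_cast; ring
          _ ≤ _ := pow_le_pow_left₀ (Nat.cast_nonneg _) hx 2
      have hd3 : (n : ℝ) ^ (1 + d / 3) ≤ (n : ℝ) ^ (1 + d) := Real.rpow_le_rpow_of_exponent_le hn.le (by linarith)
      have hkey : (n : ℝ) ^ (2 * (1 - d)) ≤ t ∧ (t : ℝ) ≤ (n : ℝ) ^ (2 * (1 + d)) := by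
        rcases ht with rfl | rfl | rfl
        · exact ⟨b3, hup _ (b1.trans hd3)⟩
        · exact ⟨c3, hup _ (c1.trans hd3)⟩
        · exact ⟨c6, hup _ c4⟩
      have hpos : 0 < (n : ℝ) ^ (2 * (1 - d)) := Real.rpow_pos_of_pos hn0 _
      have k1 : 2 * (1 - d) * Real.log n ≤ Real.log t := by
        rw [← Real.log_rpow hn0]
        exact Real.log_le_log hpos hkey.1
      have k2 : Real.log t ≤ 2 * (1 + d) * Real.log n := by
        rw [← Real.log_rpow hn0]
        exact Real.log_le_log (lt_of_lt_of_le hpos hkey.1) hkey.2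
      have k3 : |Real.log t - 2 * Real.log n| ≤ d * (2 * Real.log n) := by
        rw [abs_le]
        constructor <;> linarith
      have k4 : d * (2 * Real.log n) ≤ δ * (2 * Real.log n) :=
        mul_le_mul_of_nonneg_right (min_le_left _ _) (by positivity)
      linarith
    · intro j hj j' hj' h
      unfold far at hj hj'
      rw [Finset.mem_coe, Finset.mem_filter] at hj hj'
      have h1 := (mem_Phi.1 hj.1).1.2.2
      have h2 := (mem_Phi.1 hj'.1).1.2.2
      refine Prod.ext h ?_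
      rw [h1, h2, h]
  have h2 := exc_card (infinite_of_pnt hS) n (1 - d)
  have h3 : ((far (Phi n s) Prod.snd (2 * Real.log n) δ).card : ℝ) ≤ (exc S n (1 - d)).card := by exact_mod_cast h1
  linarith

/-- the representations and the chosen members of the family -/
lemma dec_cho {Ω : Type} {A : ℕ → Set Ω} {ω : Ω} (hS : PNT {k | ω ∈ A k}) : ∀ᶠ n : ℕ in atTop,
    |((dec {k | ω ∈ A k} n).ncard : ℝ) - (cho A (Phi n (ch A (X n) ω)) Prod.snd ω).card| ≤
      2 * (n : ℝ) ^ (4 / 5 : ℝ) + 5 := by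
  classical
  set S : Set ℕ := {k | ω ∈ A k} with hSdef
  filter_upwards [typ_mem hS] with n g
  set s := ch A (X n) ω with hs
  have hsm : ∀ t, t ∈ s ↔ t ≤ X n ∧ t ∈ S := fun t => mem_ch
  have hcard := exc_card (infinite_of_pnt hS) n (4 / 5)
  set E := exc S n (4 / 5) with hE
  have key : ∀ k, k < n → k ∉ E → (k ∈ dec S n ↔ (k, tri s n k) ∈ cho A (Phi n s) Prod.snd ω) := by
    intro k hk hkE
    obtain ⟨a1, a2, a3, a4⟩ := not_exc hk hkE
    obtain ⟨h1, h2, h3, h4, h5⟩ := g s hsm k hk a1 a2 a3 a4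
    have hk0 : 0 < k := (mem_Phi.1 h1).1.1
    unfold dec cho
    rw [Finset.mem_filter, Set.mem_ofPred_eq]
    simp only [h2, Finset.mem_insert, Finset.mem_singleton, forall_eq_or_imp, forall_eq]
    rw [p_eq, p_eq, p_eq, sqm_iff h3, sqm_iff h4, sqm_iff h5]
    constructor
    · rintro ⟨-, -, b1, b2, b3⟩
      exact ⟨h2 ▸ h1, b1, b2, b3⟩
    · rintro ⟨-, b1, b2, b3⟩
      exact ⟨hk0, hk, b1, b2, b3⟩
  have hfst : (cho A (Phi n s) Prod.snd ω).card = ((cho A (Phi n s) Prod.snd ω).image Prod.fst).card := by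
    rw [Finset.card_image_of_injOn]
    intro j hj j' hj' h
    unfold cho at hj hj'
    rw [Finset.mem_coe, Finset.mem_filter] at hj hj'
    have h1 := (mem_Phi.1 hj.1).1.2.2
    have h2 := (mem_Phi.1 hj'.1).1.2.2
    refine Prod.ext h ?_
    rw [h1, h2, h]
  have hmem : ∀ j ∈ cho A (Phi n s) Prod.snd ω, j.1 < n ∧ j = (j.1, tri s n j.1) := by
    intro j hj
    unfold cho at hj
    rw [Finset.mem_filter] at hj
    have h1 := (mem_Phi.1 hj.1).1
    exact ⟨h1.2.1, Prod.ext rfl h1.2.2⟩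
  have hfin : (dec S n).Finite := (Set.finite_lt_nat n).subset fun k hk => hk.2.1
  have h1 : (dec S n).ncard ≤ (cho A (Phi n s) Prod.snd ω).card + E.card := by
    rw [hfst]
    have hsub : dec S n ⊆ (((cho A (Phi n s) Prod.snd ω).image Prod.fst ∪ E : Finset ℕ) : Set ℕ) := by
      intro k hk
      rw [Finset.mem_coe, Finset.mem_union]
      by_cases hkE : k ∈ E
      · right; exact hkE
      · left
        rw [Finset.mem_image]
        exact ⟨_, (key k hk.2.1 hkE).1 hk, rfl⟩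
    have := Set.ncard_le_ncard hsub (Finset.finite_toSet _)
    rw [Set.ncard_coe_finset] at this
    exact this.trans (Finset.card_union_le _ _)
  have h2 : (cho A (Phi n s) Prod.snd ω).card ≤ (dec S n).ncard + E.card := by
    rw [hfst]
    have hsub : (((cho A (Phi n s) Prod.snd ω).image Prod.fst : Finset ℕ) : Set ℕ) ⊆ dec S n ∪ (E : Set ℕ) := by
      intro k hk
      rw [Finset.mem_coe, Finset.mem_image] at hk
      obtain ⟨j, hj, rfl⟩ := hk
      by_cases hkE : j.1 ∈ E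
      · right; exact Finset.mem_coe.2 hkE
      · left
        obtain ⟨b1, b2⟩ := hmem j hj
        refine (key j.1 b1 hkE).2 ?_
        rw [← b2]
        exact hj
    have h3 := Set.ncard_le_ncard hsub (hfin.union (Finset.finite_toSet E))
    rw [Set.ncard_coe_finset] at h3
    refine h3.trans ((Set.ncard_union_le _ _).trans ?_)
    rw [Set.ncard_coe_finset]
  have h3 : ((dec S n).ncard : ℝ) ≤ (cho A (Phi n s) Prod.snd ω).card + E.card := by exact_mod_cast h1
  have h4 : ((cho A (Phi n s) Prod.snd ω).card : ℝ) ≤ (dec S n).ncard + E.card := by exact_mod_cast h2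
  rw [abs_le]
  constructor <;> linarith

end Pool.Agent.Results.MP_04ff0f_nt.SequentialModels

open Pool.Agent.Results.MP_04ff0f_nt.SequentialModels Pool.Agent.N909.TF

/-- Let `A n` be the event that `n` belongs to a random set adapted to a filtration `ℱ`, and let the
conditional probability of `A (n + 1)` given `ℱ n`, times `log n`, tend to `1` almost surely.  Let
`P_k` be the chosen integer number `k`.  (1) Almost surely the number of `0 < k < n` such that
`P_k² - 2`, `P_m² - 2` and `P_{P_m}² - 2`, `m = n - k`, are all chosen is asymptotic to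
`n / (8 (log n)³)`.  (2) Almost surely every large `n` has such a representation `n = k + m`. -/
theorem Pool.Agent.Results.MP_04ff0f_nt.SequentialModels.result
    {Ω : Type} [mΩ : MeasurableSpace Ω] (μ : Measure Ω) [IsProbabilityMeasure μ]
    (ℱ : Filtration ℕ mΩ) (A : ℕ → Set Ω) (hA : ∀ n, MeasurableSet[ℱ n] (A n))
    (hd : ∀ᵐ ω ∂μ, Tendsto (fun n : ℕ =>
      (μ[(A (n + 1)).indicator (fun _ => (1 : ℝ)) | ℱ n]) ω * Real.log n) atTop (𝓝 1)) :
    (∀ᵐ ω ∂μ, Tendsto (fun n : ℕ => ((dec {k : ℕ | ω ∈ A k} n).ncard : ℝ) / (n / Real.log n ^ 3))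
      atTop (𝓝 (1 / 8))) ∧
    (∀ᵐ ω ∂μ, ∀ᶠ n : ℕ in atTop, ∃ k m : ℕ, 0 < k ∧ 0 < m ∧ n = k + m ∧
      sqm {k : ℕ | ω ∈ A k} (p {k : ℕ | ω ∈ A k} k) ∧
      sqm {k : ℕ | ω ∈ A k} (p {k : ℕ | ω ∈ A k} m) ∧
      sqm {k : ℕ | ω ∈ A k} (p {k : ℕ | ω ∈ A k} (p {k : ℕ | ω ∈ A k} m))) := by
  classical
  have hpnt := pnt_ae (μ := μ) hA hd
  have hmem : ∀ ω : Ω, ∀ n t, t ∈ ch A (X n) ω ↔ t ≤ X n ∧ t ∈ {k | ω ∈ A k} := fun ω n t => mem_ch
  have h1 := sieved_rand (μ := μ) hA 1 one_pos (fun n hn => absurd (Nat.coprime_one_right n) hn) (seq_sieved hd) 3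
    X (fun n => X n ^ 2) Phi (fun _ => 3) (fun n s j hj => (mem_Phi.1 hj).2.1)
    (fun n s j hj => (mem_Phi.1 hj).2.2.1) (fun n s j hj => (mem_Phi.1 hj).2.2.2) Phi_mult atTop le_rfl
    (fun n => 2 * Real.log n)
    ((Real.tendsto_log_atTop.comp tendsto_natCast_atTop_atTop).const_mul_atTop (by norm_num))
    (by
      filter_upwards [hpnt] with ω hω δ hδ
      obtain ⟨d, hd0, h2⟩ := Phi_far hω δ hδ
      have h3 := (err_tendsto 5 (1 - d) (by linarith) 3).eventually (gt_mem_nhds (show (0:ℝ) < δ / 16 by positivity))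
      filter_upwards [h2, Phi_card hω, h3, pow_beat (4 / 5) 1 20 (by norm_num) (by norm_num),
        eventually_gt_atTop 1] with n g1 g2 g3 g4 g5
      have hn : (1 : ℝ) < n := by exact_mod_cast g5
      have hn0 : (0 : ℝ) < n := by linarith
      have hL : 0 < Real.log n := Real.log_pos hn
      rw [cop_one]
      have k1 := g1 _ (hmem ω n)
      have k2 := (g2 _ (hmem ω n)).1
      rw [Real.rpow_one] at g4
      have hp : 0 < (n : ℝ) ^ (1 - d) := Real.rpow_pos_of_pos hn0 _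
      have hp' : 0 < (n : ℝ) ^ (4 / 5 : ℝ) := Real.rpow_pos_of_pos hn0 _
      have k3 : (n : ℝ) / 2 ≤ (Phi n (ch A (X n) ω)).card := by linarith
      rw [div_lt_iff₀ hn0] at g3
      calc ((far (Phi n (ch A (X n) ω)) Prod.snd (2 * Real.log n) δ).card : ℝ) * (2 * Real.log n) ^ 3
          ≤ (5 * (n : ℝ) ^ (1 - d) + 5) * (2 * Real.log n) ^ 3 := by
            apply mul_le_mul_of_nonneg_right _ (by positivity)
            linarith
        _ = 8 * ((5 * (n : ℝ) ^ (1 - d) + 5) * Real.log n ^ 3) := by ring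
        _ ≤ 8 * (δ / 16 * n) := by linarith
        _ = δ * (n / 2) := by ring
        _ ≤ δ * ((Phi n (ch A (X n) ω)).card : ℝ) := mul_le_mul_of_nonneg_left k3 hδ.le)
    (by
      filter_upwards [hpnt] with ω hω
      refine tendsto_atTop_mono' atTop ?_ (pow_log (1 / 48) 1 (by norm_num) one_pos 4)
      filter_upwards [Phi_card hω, pow_beat (4 / 5) 1 20 (by norm_num) (by norm_num),
        eventually_gt_atTop 1] with n g2 g4 g5
      have hn : (1 : ℝ) < n := by exact_mod_cast g5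
      have hn0 : (0 : ℝ) < n := by linarith
      have hL : 0 < Real.log n := Real.log_pos hn
      rw [cop_one]
      have k2 := (g2 _ (hmem ω n)).1
      rw [Real.rpow_one] at g4
      have hp' : 0 < (n : ℝ) ^ (4 / 5 : ℝ) := Real.rpow_pos_of_pos hn0 _
      have k3 : (n : ℝ) / 2 ≤ (Phi n (ch A (X n) ω)).card := by linarith
      rw [Real.rpow_one, div_le_div_iff₀ (by positivity) (by positivity)]
      have e1 : 1 / 48 * (n : ℝ) * (((3 : ℕ) : ℝ) * Real.log n * (2 * Real.log n) ^ 3) = n / 2 * Real.log n ^ 4 := by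
        push_cast
        ring
      rw [e1]
      exact mul_le_mul_of_nonneg_right k3 (by positivity))
  have h2 : ∀ᵐ ω ∂μ, Tendsto (fun n : ℕ => ((dec {k : ℕ | ω ∈ A k} n).ncard : ℝ) / (n / Real.log n ^ 3))
      atTop (𝓝 (1 / 8)) := by
    filter_upwards [h1, hpnt] with ω hω hpω
    have h3 : Tendsto (fun n : ℕ => ((cho A (Phi n (ch A (X n) ω)) Prod.snd ω).card : ℝ) / (n / Real.log n ^ 3))
        atTop (𝓝 (1 / 8)) := by
      refine ratio_tendsto hω ?_
      -- the number of members is asymptotic to n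
      have h4 : Tendsto (fun n : ℕ => ((Phi n (ch A (X n) ω)).card : ℝ) / n) atTop (𝓝 1) := by
        have h5 : Tendsto (fun n : ℕ => 1 - (5 * (n : ℝ) ^ (4 / 5 : ℝ) + 5) * Real.log n ^ 0 / n) atTop (𝓝 1) := by
          have := (err_tendsto 5 (4 / 5) (by norm_num) 0).const_sub 1
          rwa [sub_zero] at this
        refine tendsto_of_tendsto_of_tendsto_of_le_of_le' h5 tendsto_const_nhds ?_ ?_
        · filter_upwards [Phi_card hpω, eventually_gt_atTop 1] with n g1 g2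
          have hn : (0 : ℝ) < n := by
            have : (1 : ℝ) < n := by exact_mod_cast g2
            linarith
          have k := (g1 _ (hmem ω n)).1
          have hp' : 0 < (n : ℝ) ^ (4 / 5 : ℝ) := Real.rpow_pos_of_pos hn _
          rw [le_div_iff₀ hn, sub_mul, div_mul_cancel₀ _ hn.ne', pow_zero]
          linarith
        · filter_upwards [Phi_card hpω, eventually_gt_atTop 1] with n g1 g2
          have hn : (0 : ℝ) < n := by
            have : (1 : ℝ) < n := by exact_mod_cast g2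
            linarith
          rw [div_le_one hn]
          exact (g1 _ (hmem ω n)).2
      have h5 := h4.const_mul (1 / 8)
      rw [mul_one] at h5
      refine h5.congr' ?_
      filter_upwards [eventually_gt_atTop 1] with n g1
      have hn : (1 : ℝ) < n := by exact_mod_cast g1
      have hL : 0 < Real.log n := Real.log_pos hn
      rw [cop_one, Nat.totient_one, Nat.cast_one, div_one]
      field_simp
      ring
    have h6 : Tendsto (fun n : ℕ => ((dec {k : ℕ | ω ∈ A k} n).ncard : ℝ) / (n / Real.log n ^ 3) -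
        ((cho A (Phi n (ch A (X n) ω)) Prod.snd ω).card : ℝ) / (n / Real.log n ^ 3)) atTop (𝓝 0) := by
      refine squeeze_zero_norm' ?_ (err_tendsto 5 (4 / 5) (by norm_num) 3)
      filter_upwards [dec_cho hpω, eventually_gt_atTop 1] with n g1 g2
      have hn : (1 : ℝ) < n := by exact_mod_cast g2
      have hn0 : (0 : ℝ) < n := by linarith
      have hL : 0 < Real.log n := Real.log_pos hn
      have hp' : 0 < (n : ℝ) ^ (4 / 5 : ℝ) := Real.rpow_pos_of_pos hn0 _
      rw [Real.norm_eq_abs, ← sub_div, abs_div, abs_of_pos (show 0 < (n : ℝ) / Real.log n ^ 3 by positivity),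
        div_div_eq_mul_div]
      gcongr
      linarith
    have h7 := h6.add h3
    rw [zero_add] at h7
    exact h7.congr fun n => by ring
  refine ⟨h2, ?_⟩
  filter_upwards [h2] with ω hω
  filter_upwards [hω.eventually (lt_mem_nhds (show (0:ℝ) < 1 / 8 by norm_num))] with n g
  have hpos : (dec {k : ℕ | ω ∈ A k} n).ncard ≠ 0 := by
    intro h
    rw [h, Nat.cast_zero, zero_div] at g
    exact lt_irrefl _ g
  obtain ⟨k, k1, k2, k3, k4, k5⟩ := Set.nonempty_of_ncard_ne_zero hpos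
  exact ⟨k, n - k, k1, by omega, by omega, k3, k4, k5⟩
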